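import Mathlib

set_option autoImplicit false
set_option linter.unusedVariables false
set_option linter.unusedSectionVars false

open Polynomial IntermediateField

namespace Pool.Agent.W285.WF

variable {k L : Type*} [Field k] [Field L] [Algebra k L]

section val

variable {Γ : Type*} [LinearOrderedCommGroupWithZero Γ] (v : Valuation L Γ)

/-- A vanishing sum of nonzero terms has two terms of equal valuation. -/
lemma exists_eq_val {ι : Type*} (s : Finset ι) (hs : s.Nonempty) (f : ι → L)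
    (hf : ∀ i ∈ s, f i ≠ 0) (h0 : ∑ i ∈ s, f i = 0) :
    ∃ i ∈ s, ∃ j ∈ s, i ≠ j ∧ v (f i) = v (f j) := by
  classical
  obtain ⟨i, hi, hmax⟩ := s.exists_max_image (fun i => v (f i)) hs
  by_contra hcon
  push Not at hcon
  have h1 := v.map_sum_eq_of_lt (s := s) (f := f) hi (fun j hj => by
    rw [Finset.mem_sdiff, Finset.mem_singleton] at hj
    exact lt_of_le_of_ne (hmax j hj.1) (hcon j hj.1 i hi hj.2))
  rw [h0, map_zero] at h1
  exact hf i hi ((Valuation.zero_iff v).1 h1.symm)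

variable (hk : ∀ c : k, c ≠ 0 → v (algebraMap k L c) = 1) {x : L} (hx0 : x ≠ 0) (hx : v x < 1)

include hk hx in
lemma val_aeval_one (q : k[X]) (hc : q.coeff 0 ≠ 0) : v (aeval x q) = 1 := by
  have hle : ∀ p : k[X], v (aeval x p) ≤ 1 := by
    intro p
    rw [aeval_eq_sum_range]
    refine Valuation.map_sum_le v fun i _ => ?_
    rw [Algebra.smul_def, map_mul, map_pow]
    have h1 : v (algebraMap k L (p.coeff i)) ≤ 1 := by
      by_cases h : p.coeff i = 0
      · rw [h, map_zero, map_zero]; exact zero_le_one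
      · exact (hk _ h).le
    exact mul_le_one' h1 (pow_le_one' hx.le i)
  have hdiv : aeval x q = algebraMap k L (q.coeff 0) + x * aeval x q.divX := by
    conv_lhs => rw [← q.divX_mul_X_add]
    rw [map_add, map_mul, aeval_X, aeval_C]
    ring
  rw [hdiv, ← hk _ hc]
  apply Valuation.map_add_eq_of_lt_left
  rw [hk _ hc, map_mul]
  calc v x * v (aeval x q.divX) ≤ v x * 1 := by gcongr; exact hle _
    _ = v x := mul_one _
    _ < 1 := hx

include hk hx in
/-- Values of polynomials. -/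
lemma val_aeval (r : k[X]) (hr : aeval x r ≠ 0) : ∃ n : ℕ, v (aeval x r) = v x ^ n := by
  have hr0 : r ≠ 0 := by rintro rfl; exact hr (map_zero _)
  obtain ⟨q, hq, hq0⟩ := Polynomial.exists_eq_pow_rootMultiplicity_mul_and_not_dvd r hr0 0
  rw [map_zero, sub_zero] at hq hq0
  refine ⟨rootMultiplicity 0 r, ?_⟩
  have hc : q.coeff 0 ≠ 0 := fun h0 => hq0 (X_dvd_iff.2 h0)
  have hval : aeval x r = x ^ rootMultiplicity 0 r * aeval x q := by
    conv_lhs => rw [hq]
    rw [map_mul, map_pow, aeval_X]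
  rw [hval, map_mul, map_pow, val_aeval_one v hk hx q hc, mul_one]

include hk hx hx0 in
lemma transc_of_val : Transcendental k x := by
  rintro ⟨r, hr0, hr⟩
  obtain ⟨q, hq, hq0⟩ := Polynomial.exists_eq_pow_rootMultiplicity_mul_and_not_dvd r hr0 0
  rw [map_zero, sub_zero] at hq hq0
  have hc : q.coeff 0 ≠ 0 := fun h0 => hq0 (X_dvd_iff.2 h0)
  rw [hq, map_mul, map_pow, aeval_X] at hr
  have h1 := (mul_eq_zero.1 hr).resolve_left (pow_ne_zero _ hx0)
  have h2 := val_aeval_one v hk hx q hc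
  rw [h1, map_zero] at h2
  exact zero_ne_one h2

include hk hx0 hx in
lemma val_mem {f : L} (hf : f ∈ k⟮x⟯) (hf0 : f ≠ 0) : ∃ n : ℤ, v f = v x ^ n := by
  obtain ⟨r, s, rfl⟩ := (mem_adjoin_simple_iff k f).1 hf
  have hr : aeval x r ≠ 0 := by rintro h; exact hf0 (by rw [h, zero_div])
  have hs : aeval x s ≠ 0 := by rintro h; exact hf0 (by rw [h, div_zero])
  obtain ⟨n, hn⟩ := val_aeval v hk hx r hr
  obtain ⟨m, hm⟩ := val_aeval v hk hx s hs
  refine ⟨(n : ℤ) - m, ?_⟩
  have hv : v x ≠ 0 := (Valuation.ne_zero_iff v).2 hx0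
  rw [map_div₀, hn, hm, zpow_sub₀ hv, zpow_natCast, zpow_natCast]

include hk hx0 hx in
lemma val_pow [FiniteDimensional k⟮x⟯ L] {b : L} (hb : b ≠ 0) :
    ∃ j : ℕ, 1 ≤ j ∧ j ≤ Module.finrank k⟮x⟯ L ∧ ∃ m : ℤ, v b ^ j = v x ^ m := by
  classical
  have hint : IsIntegral k⟮x⟯ b := Algebra.IsIntegral.isIntegral b
  set q := minpoly k⟮x⟯ b with hqdef
  have hq0 : q ≠ 0 := minpoly.ne_zero hint
  have h1 : ∑ i ∈ q.support, (q.coeff i : L) * b ^ i = 0 := by
    have h2 := minpoly.aeval k⟮x⟯ b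
    rw [← hqdef, aeval_def, eval₂_eq_sum, Polynomial.sum] at h2
    exact h2
  obtain ⟨i, hi, j, hj, hij, hv⟩ := exists_eq_val v q.support (support_nonempty.2 hq0)
    (fun i => (q.coeff i : L) * b ^ i) (by
      intro i hi
      rw [mem_support_iff] at hi
      refine mul_ne_zero ?_ (pow_ne_zero _ hb)
      intro h
      exact hi (Subtype.ext h)) h1
  have key : ∀ i j, i ∈ q.support → j ∈ q.support → i < j →
      v ((q.coeff i : L) * b ^ i) = v ((q.coeff j : L) * b ^ j) →
      ∃ j : ℕ, 1 ≤ j ∧ j ≤ Module.finrank k⟮x⟯ L ∧ ∃ m : ℤ, v b ^ j = v x ^ m := by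
    intro i j hi hj hij hv
    rw [mem_support_iff] at hi hj
    obtain ⟨m1, hm1⟩ := val_mem v hk hx0 hx (q.coeff i).2 (fun h => hi (Subtype.ext h))
    obtain ⟨m2, hm2⟩ := val_mem v hk hx0 hx (q.coeff j).2 (fun h => hj (Subtype.ext h))
    rw [map_mul, map_mul, hm1, hm2, map_pow, map_pow] at hv
    have hvx : v x ≠ 0 := (Valuation.ne_zero_iff v).2 hx0
    have hvb : v b ≠ 0 := (Valuation.ne_zero_iff v).2 hb
    refine ⟨j - i, by omega, ?_, m1 - m2, ?_⟩
    · have h3 : q.natDegree ≤ Module.finrank k⟮x⟯ L := minpoly.natDegree_le b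
      have h4 : j ≤ q.natDegree := le_natDegree_of_ne_zero hj
      omega
    · have h5 : v b ^ j = v b ^ i * v b ^ (j - i) := by rw [← pow_add]; congr 1; omega
      rw [h5] at hv
      rw [zpow_sub₀ hvx]
      have h6 := pow_ne_zero i hvb
      have h7 := zpow_ne_zero m2 hvx
      rw [eq_div_iff h7]
      apply mul_left_cancel₀ h6
      rw [mul_comm (v b ^ i) (v x ^ m1), hv]
      ac_rfl
  rcases lt_or_gt_of_ne hij with h | h
  · exact key i j hi hj h hv
  · exact key j i hj hi h hv.symm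

include hk hx0 hx in
/-- A nonzero element is not divisible by arbitrarily long products of nonunits. -/
theorem bounded [FiniteDimensional k⟮x⟯ L] {a : L} (ha : a ≠ 0) :
    ∃ B : ℕ, ∀ (n : ℕ) (e : ℕ → L) (c : L), (∀ i, v (e i) < 1) → v c ≤ 1 →
      a = (∏ i ∈ Finset.range n, e i) * c → n ≤ B := by
  have hvx : v x ≠ 0 := (Valuation.ne_zero_iff v).2 hx0
  have hvxpos : 0 < v x := zero_lt_iff.2 hvx
  obtain ⟨j, hj1, hj2, m, hm⟩ := val_pow v hk hx0 hx ha
  set d := Module.finrank k⟮x⟯ L with hd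
  refine ⟨(m * d).toNat, ?_⟩
  intro n e c he hc h
  have he0 : ∀ i ∈ Finset.range n, e i ≠ 0 := by
    intro i hi h0
    apply ha
    rw [h, Finset.prod_eq_zero hi h0, zero_mul]
  have hed : ∀ i ∈ Finset.range n, v (e i) ^ d ≤ v x := by
    intro i hi
    obtain ⟨l, hl1, hl2, m', hm'⟩ := val_pow v hk hx0 hx (he0 i hi)
    have h1 : 1 ≤ m' := by
      by_contra hcon
      have h2 : m' ≤ 0 := by omega
      have h3 : v (e i) ^ l < 1 := pow_lt_one₀ zero_le (he i) (by omega)
      rw [hm'] at h3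
      have h4 : (1 : Γ) ≤ v x ^ m' := by
        rw [← zpow_zero (v x)]
        exact zpow_le_zpow_right_of_le_one₀ hvxpos hx.le h2
      exact absurd h3 (not_lt.2 h4)
    calc v (e i) ^ d ≤ v (e i) ^ l := pow_le_pow_right_of_le_one' (he i).le hl2
      _ = v x ^ m' := hm'
      _ ≤ v x ^ (1 : ℤ) := zpow_le_zpow_right_of_le_one₀ hvxpos hx.le h1
      _ = v x := zpow_one _
  have h1 : v a ^ d ≤ v x ^ n := by
    rw [h, map_mul, map_prod, mul_pow, ← Finset.prod_pow]
    calc (∏ i ∈ Finset.range n, v (e i) ^ d) * v c ^ d ≤ (∏ i ∈ Finset.range n, v x) * 1 := by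
          apply mul_le_mul'
          · exact Finset.prod_le_prod' hed
          · exact pow_le_one' hc d
      _ = v x ^ n := by rw [Finset.prod_const, Finset.card_range, mul_one]
  have h2 : v x ^ (m * d) ≤ v x ^ ((n : ℤ) * j) := by
    have h3 : v x ^ (m * (d : ℤ)) = (v a ^ d) ^ j := by
      rw [zpow_mul, ← hm, zpow_natCast, ← pow_mul, ← pow_mul, mul_comm]
    rw [h3, zpow_mul, zpow_natCast, zpow_natCast]
    exact pow_le_pow_left' h1 j
  have h4 : (n : ℤ) * j ≤ m * d := by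
    by_contra hcon
    push Not at hcon
    exact absurd h2 (not_le.2 (zpow_lt_zpow_right_of_lt_one₀ hvxpos hx hcon))
  have h5 : (n : ℤ) ≤ (n : ℤ) * j := by
    have : (1 : ℤ) ≤ j := by exact_mod_cast hj1
    nlinarith [Int.natCast_nonneg n]
  have h6 : (n : ℤ) ≤ m * d := h5.trans h4
  omega

end val

end Pool.Agent.W285.WF
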