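import Pool.Agent.W285.WF.Der
import Pool.Agent.W285.WF.Val

set_option autoImplicit false
set_option linter.unusedVariables false
set_option linter.unusedSectionVars false

universe u

open Polynomial IntermediateField Pool.Agent.W558

namespace Pool.Agent.W285.WF

variable {k E : Type u} [Field k] [Field E] [Algebra k E]

/-- Quotient rule. -/
lemma quot_mem (D : Derivation k E E) {B O' : Subalgebra k E} (hBO : B ≤ O')
    (hB : ∀ b ∈ B, D b ∈ O') {a b : E} (ha : a ∈ B) (hb : b ∈ B) (hbi : b⁻¹ ∈ O') :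
    D (a * b⁻¹) ∈ O' := by
  rw [Derivation.leibniz, Derivation.leibniz_inv]
  simp only [smul_eq_mul]
  refine O'.add_mem (O'.mul_mem (hBO ha) ?_) (O'.mul_mem hbi (hB a ha))
  refine O'.mul_mem (O'.neg_mem (O'.pow_mem hbi 2)) (hB b hb)

/-- Derivations on a blowup. -/
lemma quad_der {O O' : Subalgebra k E} {e : E} (h : Quad O e O') (D : Derivation k E E)
    (hD : ∀ x ∈ O, D x ∈ O) : ∀ x ∈ O', (e • D) x ∈ O' := by
  have hBO : BB O e ≤ O' := by
    unfold BB
    rw [Algebra.adjoin_le_iff]
    rintro x (hx | ⟨y, hy, rfl⟩)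
    · exact h.le hx
    · exact h.div y hy
  have hB : ∀ b ∈ BB O e, (e • D) b ∈ O' := by
    intro b hb
    unfold BB at hb
    induction hb using Algebra.adjoin_induction with
    | mem x hx =>
      rcases hx with hx | ⟨y, hy, rfl⟩
      · rw [Derivation.smul_apply, smul_eq_mul]
        exact O'.mul_mem (h.le h.eO.1) (h.le (hD x hx))
      · have h1 : (e • D) (y * e⁻¹) = D y - (y * e⁻¹) * D e := by
          have he0 := h.e0
          rw [Derivation.smul_apply, Derivation.leibniz, Derivation.leibniz_inv]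
          simp only [smul_eq_mul]
          field_simp
          ring
        rw [h1]
        exact O'.sub_mem (h.le (hD y hy.1)) (O'.mul_mem (h.div y hy) (h.le (hD e h.eO.1)))
    | algebraMap r => rw [Derivation.map_algebraMap]; exact O'.zero_mem
    | add x y _ _ h1 h2 => rw [map_add]; exact O'.add_mem h1 h2
    | mul x y hx hy h1 h2 =>
      rw [Derivation.leibniz]
      exact O'.add_mem (O'.mul_mem (hBO hx) h2) (O'.mul_mem (hBO hy) h1)
  intro x hx
  obtain ⟨a, ha, b, hb, hb0, hbi, rfl⟩ := h.frac x hx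
  exact quot_mem _ hBO hB ha hb hbi

theorem main : S_wf := by
  intro k E _ _ _ _ htr A O W hA hO hW hOW
  have hl := isLocalRing_of_loc hW.loc
  by_contra hacc
  obtain ⟨f, hf0, hf⟩ := not_acc_iff_exists_descending_chain.1 hacc
  choose e he1 he2 he3 he4 using hf
  obtain ⟨y, hyA, hy0, hy, D, hDA, hDy⟩ := exists_D hA hW
  have hfW : ∀ n, f n ≤ W := by
    intro n
    cases n with
    | zero => rw [hf0]; exact hOW
    | succ n => exact he2 n
  have hmono : ∀ m n, m ≤ n → f m ≤ f n ∧ ∀ x, NU (f m) x → NU (f n) x := by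
    intro m n hmn
    induction n, hmn using Nat.le_induction with
    | base => exact ⟨le_rfl, fun x h => h⟩
    | succ n hmn ih => exact ⟨ih.1.trans (he1 n).le, fun x h => (he1 n).nu x (ih.2 x h)⟩
  have hloc : ∀ n x y, NU (f n) x → NU (f n) y → NU (f n) (x + y) := by
    intro n
    cases n with
    | zero => rw [hf0]; exact hO.loc
    | succ n => exact (he1 n).loc
  have heW : ∀ n, e n ∈ W := fun n => hfW n (he1 n).eO.1
  have hei : ∀ n, (e n)⁻¹ ∈ W := fun n => ((not_NU_iff (heW n)).1 (he3 n)).2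
  set Q : ℕ → E := fun n => ∏ i ∈ Finset.range n, e i with hQ
  have hQ0 : ∀ n, Q n ≠ 0 := fun n => Finset.prod_ne_zero_iff.2 fun i _ => (he1 i).e0
  have hQs : ∀ n, Q (n + 1) = Q n * e n := fun n => Finset.prod_range_succ e n
  have hQW : ∀ n, Q n ∈ W := fun n => W.prod_mem fun i _ => heW i
  have hQi : ∀ n, (Q n)⁻¹ ∈ W := by
    intro n
    rw [hQ]
    simp only
    rw [← Finset.prod_inv_distrib]
    exact W.prod_mem fun i _ => hei i
  have hDO : ∀ n, ∀ x ∈ f n, (Q n • D) x ∈ f n := by
    intro n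
    induction n with
    | zero =>
      intro x hx
      have h1 : Q 0 = 1 := Finset.prod_range_zero e
      rw [h1, one_smul]
      rw [hf0] at hx ⊢
      obtain ⟨a, ha, b, hb, hb0, hbi, rfl⟩ := hO.frac x hx
      exact quot_mem D hO.le (fun b hb => hO.le (hDA b hb)) ha hb hbi
    | succ n ih =>
      have h1 : Q (n + 1) • D = e n • (Q n • D) := by
        rw [hQs, smul_smul, mul_comm]
      rw [h1]
      exact quad_der (he1 n) (Q n • D) ih
  have hDW : ∀ x ∈ W, D x ∈ W := by
    intro x hx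
    obtain ⟨a, ha, b, hb, hb0, hbi, rfl⟩ := hW.frac x hx
    exact quot_mem D hW.le (fun b hb => hW.le (hDA b hb)) ha hb hbi
  set z : ℕ → E := fun n => y * (Q n ^ 2)⁻¹ with hz
  have hzW : ∀ n, NU W (z n) := by
    intro n
    refine hy.mul_right ?_
    rw [← inv_pow]
    exact W.pow_mem (hQi n) 2
  have hzf : ∀ n, z n ∈ f n := by
    intro n
    induction n with
    | zero =>
      have h1 : z 0 = y := by
        have : Q 0 = 1 := Finset.prod_range_zero e
        simp only [hz]
        rw [this, one_pow, inv_one, mul_one]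
      rw [h1, hf0]
      exact hO.le hyA
    | succ n ih =>
      have h1 : z (n + 1) = z n * (e n ^ 2)⁻¹ := by
        simp only [hz]
        rw [hQs, mul_pow, mul_inv, mul_assoc]
      rw [h1]
      exact he4 n (z n) ih (hzW n)
  -- the subring and the ideal
  let U : Subring (IsLocalRing.ResidueField W) :=
    { carrier := {l | ∃ n, ∃ w : W, (w : E) ∈ f n ∧ rho W w = l}
      zero_mem' := ⟨0, 0, (f 0).zero_mem, map_zero _⟩
      one_mem' := ⟨0, 1, (f 0).one_mem, map_one _⟩
      add_mem' := by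
        rintro _ _ ⟨n, w, hw, rfl⟩ ⟨m, w', hw', rfl⟩
        refine ⟨max n m, w + w', ?_, map_add _ _ _⟩
        exact (f _).add_mem ((hmono n _ (le_max_left _ _)).1 hw)
          ((hmono m _ (le_max_right _ _)).1 hw')
      mul_mem' := by
        rintro _ _ ⟨n, w, hw, rfl⟩ ⟨m, w', hw', rfl⟩
        refine ⟨max n m, w * w', ?_, map_mul _ _ _⟩
        exact (f _).mul_mem ((hmono n _ (le_max_left _ _)).1 hw)
          ((hmono m _ (le_max_right _ _)).1 hw')
      neg_mem' := by
        rintro _ ⟨n, w, hw, rfl⟩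
        exact ⟨n, -w, (f n).neg_mem hw, map_neg _ _⟩ }
  let I : Ideal U :=
    { carrier := {l | ∃ n, ∃ w : W, NU (f n) (w : E) ∧ rho W w = l}
      zero_mem' := ⟨0, 0, NU.zero, map_zero _⟩
      add_mem' := by
        rintro ⟨_, _⟩ ⟨_, _⟩ ⟨n, w, hw, h1⟩ ⟨m, w', hw', h2⟩
        refine ⟨max n m, w + w', ?_, ?_⟩
        · exact hloc _ _ _ ((hmono n _ (le_max_left _ _)).2 _ hw)
            ((hmono m _ (le_max_right _ _)).2 _ hw')
        · rw [map_add, h1, h2]; rfl
      smul_mem' := by
        rintro ⟨l, hl⟩ ⟨_, _⟩ ⟨n, w, hw, h1⟩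
        obtain ⟨m, w', hw', rfl⟩ := hl
        refine ⟨max n m, w' * w, ?_, ?_⟩
        · exact NU.mul_left ((hmono n _ (le_max_left _ _)).2 _ hw)
            ((hmono m _ (le_max_right _ _)).1 hw')
        · rw [map_mul, h1]; rfl }
  have hI : I ≠ ⊤ := by
    intro h
    have h1 : (1 : U) ∈ I := by rw [h]; trivial
    obtain ⟨n, w, hw, h2⟩ := h1
    have h3 : rho W (w - 1) = 0 := by
      rw [map_sub, h2, map_one]
      exact sub_self _
    rw [rho_eq_zero] at h3
    have h4 : NU (f n) ((w : E) - 1) := by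
      by_contra h5
      have h6 : (w : E) - 1 ∈ f n := (f n).sub_mem hw.1 (f n).one_mem
      rw [not_NU_iff h6] at h5
      exact not_NU_of_inv h5.1 (hfW n h5.2) h3
    have h7 := hloc n _ _ hw h4.neg
    rw [neg_sub, add_sub_cancel] at h7
    exact not_NU_one h7
  obtain ⟨P, hP1, hP2⟩ := Ideal.image_subset_nonunits_valuationSubring I hI
  let v := P.valuation
  have hv1 : ∀ (n : ℕ) (w : W), (w : E) ∈ f n → v (rho W w) ≤ 1 := by
    intro n w hw
    rw [ValuationSubring.valuation_le_one_iff]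
    exact hP1 ⟨n, w, hw, rfl⟩
  have hv2 : ∀ (n : ℕ) (w : W), NU (f n) (w : E) → v (rho W w) < 1 := by
    intro n w hw
    have h1 : rho W w ∈ U := ⟨n, w, hw.1, rfl⟩
    have h2 : rho W w ∈ P.nonunits := hP2 ⟨⟨_, h1⟩, ⟨n, w, hw, rfl⟩, rfl⟩
    exact (ValuationSubring.mem_nonunits_iff P).1 h2
  have hk : ∀ c : k, c ≠ 0 → v (algebraMap k (IsLocalRing.ResidueField W) c) = 1 := by
    have h1 : ∀ c : k, v (algebraMap k (IsLocalRing.ResidueField W) c) ≤ 1 := by
      intro c
      have h2 : algebraMap k (IsLocalRing.ResidueField W) c = rho W (algebraMap k W c) :=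
        ((rho W).commutes c).symm
      rw [h2]
      exact hv1 0 _ ((f 0).algebraMap_mem c)
    intro c hc
    refine le_antisymm (h1 c) ?_
    have h2 := h1 c⁻¹
    rw [map_inv₀, map_inv₀] at h2
    have h3 : v (algebraMap k (IsLocalRing.ResidueField W) c) ≠ 0 := by
      rw [Valuation.ne_zero_iff]
      exact (_root_.map_ne_zero _).2 hc
    exact (inv_le_one₀ (zero_lt_iff.2 h3)).1 h2
  let x : IsLocalRing.ResidueField W := rho W ⟨e 0, heW 0⟩
  have hx0 : x ≠ 0 := fun h => he3 0 (rho_eq_zero.1 h)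
  have hx : v x < 1 := hv2 0 _ (he1 0).eO
  have htrx : Transcendental k x := transc_of_val v hk hx0 hx
  have hfin := finite_residue htr hA hW htrx
  have ha : rho W ⟨D y, hDW y hy.1⟩ ≠ 0 := fun h => hDy (rho_eq_zero.1 h)
  obtain ⟨B, hB⟩ := bounded v hk hx0 hx ha
  have hc := hDO (B + 1) _ (hzf (B + 1))
  have hcW := hfW _ hc
  have key := hB (B + 1) (fun i => rho W ⟨e i, heW i⟩) (rho W ⟨_, hcW⟩)
    (fun i => hv2 i _ (he1 i).eO) (hv1 _ _ hc) (by
      rw [← map_prod, ← map_mul, ← sub_eq_zero, ← map_sub, rho_eq_zero]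
      have h1 : ((⟨D y, hDW y hy.1⟩ - (∏ i ∈ Finset.range (B + 1), (⟨e i, heW i⟩ : W)) *
          ⟨_, hcW⟩ : W) : E) = z (B + 1) * (2 * Q (B + 1) * D (Q (B + 1))) := by
        push_cast
        have h2 : (∏ i ∈ Finset.range (B + 1), ((⟨e i, heW i⟩ : W) : E)) = Q (B + 1) := rfl
        rw [h2]
        have h3 : y = z (B + 1) * Q (B + 1) ^ 2 := by
          simp only [hz]
          have := hQ0 (B + 1)
          field_simp
        have h4 : D y = D (z (B + 1)) * Q (B + 1) ^ 2 +
            z (B + 1) * (2 * Q (B + 1) * D (Q (B + 1))) := by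
          conv_lhs => rw [h3]
          rw [Derivation.leibniz, pow_two, Derivation.leibniz]
          simp only [smul_eq_mul]
          ring
        rw [h4, Derivation.smul_apply, smul_eq_mul]
        ring
      rw [h1]
      refine (hzW _).mul_right ?_
      exact W.mul_mem (W.mul_mem (by
        have : (2 : E) = 1 + 1 := by norm_num
        rw [this]; exact W.add_mem W.one_mem W.one_mem) (hQW _)) (hDW _ (hQW _)))
  omega

end Pool.Agent.W285.WF
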